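import Pool.Agent.J4H48.SM.Pr

/-!
Choice of the scale.
-/

set_option autoImplicit false

open Finset

namespace Pool.Agent.J4H48.SM

/-- the number of the elements of `A` in `{1, …, N}` -/
noncomputable def count (A : Set ℕ) (N : ℕ) : ℕ := (A ∩ Set.Icc 1 N).ncard

theorem count_fin (A : Set ℕ) (N : ℕ) : (A ∩ Set.Icc 1 N).Finite :=
  (Set.finite_Icc 1 N).subset Set.inter_subset_right

theorem count_zero (A : Set ℕ) : count A 0 = 0 := by
  unfold count
  have : A ∩ Set.Icc 1 0 = ∅ := by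
    ext x
    simp only [Set.mem_inter_iff, Set.mem_Icc, Set.mem_empty_iff_false, iff_false, not_and, not_le]
    intros
    omega
  rw [this, Set.ncard_empty]

theorem scale (A : Set ℕ) (N : ℕ) (h : 0 < count A N) :
    ∃ i, count A N ≤ 2 ^ i * count A (N / 64 ^ i) ∧
      2 * count A (N / 64 ^ (i + 1)) < count A (N / 64 ^ i) := by
  by_contra hno
  push Not at hno
  have key : ∀ i, count A N ≤ 2 ^ i * count A (N / 64 ^ i) := by
    intro i
    induction i with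
    | zero => simp
    | succ i ih =>
      have := hno i ih
      calc count A N ≤ 2 ^ i * count A (N / 64 ^ i) := ih
        _ ≤ 2 ^ i * (2 * count A (N / 64 ^ (i + 1))) := Nat.mul_le_mul_left _ this
        _ = 2 ^ (i + 1) * count A (N / 64 ^ (i + 1)) := by ring
  have h1 := key N
  have h2 : N / 64 ^ N = 0 := Nat.div_eq_of_lt (Nat.lt_pow_self (by norm_num))
  rw [h2, count_zero, mul_zero] at h1
  omega

open Classical in
/-- the elements of `A` in `(n', n]` -/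
noncomputable def piece (A : Set ℕ) (n' n : ℕ) : Finset ℕ := (Ioc n' n).filter (· ∈ A)

theorem mem_piece (A : Set ℕ) (n' n x : ℕ) : x ∈ piece A n' n ↔ (n' < x ∧ x ≤ n) ∧ x ∈ A := by
  classical
  unfold piece
  simp only [mem_filter, mem_Ioc]

theorem piece_card (A : Set ℕ) (n' n : ℕ) : count A n ≤ count A n' + (piece A n' n).card := by
  unfold count
  rw [← Set.ncard_coe_finset (piece A n' n)]
  refine (Set.ncard_le_ncard ?_ ((count_fin A n').union (Finset.finite_toSet _))).trans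
    (Set.ncard_union_le _ _)
  rintro x ⟨hx, h1, h2⟩
  rcases Nat.lt_or_ge n' x with h | h
  · refine Or.inr ?_
    rw [mem_coe, mem_piece]
    exact ⟨⟨h, h2⟩, hx⟩
  · exact Or.inl ⟨hx, h1, h⟩

theorem core (A : Set ℕ) (m : ℕ → ℕ) (hm : ∀ a, 1 ≤ m a) (K N : ℕ) (c g : ℝ) (hc : 0 < c)
    (hg : 0 < g) (hN : 1 ≤ N) (hA : c * Real.sqrt N ≤ g * count A N)
    (hmg : ∀ n : ℕ, 1 ≤ n → n ≤ N →
      (98304 * (K + 1) ^ 2 / c ^ 2) * g ^ 2 ≤ m n * Real.sqrt (N / n))
    (hbig : 40 * ((K : ℝ) + 1) ≤ c * (N : ℝ) ^ (1 / 3 : ℝ) / (2 * g)) :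
    ∃ (B : Finset ℕ) (M n : ℕ), (∀ b ∈ B, b ∈ A) ∧ (∀ b ∈ B, 1 ≤ b ∧ b ≤ n) ∧ 1 ≤ M ∧ M ≤ n ∧
      n ≤ N ∧ (∀ b ∈ B, M ≤ m b) ∧ c * (N : ℝ) ^ (1 / 3 : ℝ) / (2 * g) ≤ B.card ∧
      384 * (K + 1) ^ 2 * n ≤ (B.card - 2 * (K + 1) * (B.card / (4 * (K + 1)))) ^ 2 * M := by
  have hN' : (1 : ℝ) ≤ N := by exact_mod_cast hN
  have hsq : 0 < Real.sqrt N := Real.sqrt_pos.2 (by linarith)
  have hpos : 0 < count A N := by
    by_contra h0
    have : count A N = 0 := by omega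
    rw [this, Nat.cast_zero, mul_zero] at hA
    nlinarith [mul_pos hc hsq]
  obtain ⟨i, hi1, hi2⟩ := scale A N hpos
  obtain ⟨n, hn⟩ : ∃ n, n = N / 64 ^ i := ⟨_, rfl⟩
  obtain ⟨n', hn'⟩ : ∃ n', n' = N / 64 ^ (i + 1) := ⟨_, rfl⟩
  rw [← hn] at hi1 hi2
  rw [← hn'] at hi2
  obtain ⟨B, hBdef⟩ : ∃ B, B = piece A n' n := ⟨_, rfl⟩
  have hBA : ∀ b ∈ B, b ∈ A ∧ n' < b ∧ b ≤ n := by
    intro b hb
    rw [hBdef, mem_piece] at hb
    exact ⟨hb.2, hb.1.1, hb.1.2⟩
  have hcard : count A n ≤ 2 * B.card := by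
    have := piece_card A n' n
    rw [← hBdef] at this
    omega
  have hn1 : 1 ≤ n := by
    by_contra h0
    have : n = 0 := by omega
    rw [this, count_zero] at hi2
    omega
  have h64 : (64 : ℝ) ^ i * n ≤ N := by
    have h1 : 64 ^ i * n ≤ N := by
      rw [hn]
      exact Nat.mul_div_le N (64 ^ i)
    exact_mod_cast h1
  have hn1' : (1 : ℝ) ≤ n := by exact_mod_cast hn1
  have h64' : (64 : ℝ) ^ i ≤ N := by
    have : (64 : ℝ) ^ i * 1 ≤ 64 ^ i * n := by gcongr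
    linarith
  -- the cardinality of `B`
  have hB1 : c * Real.sqrt N ≤ g * (2 ^ i * (2 * B.card)) := by
    have h1 : (count A N : ℝ) ≤ 2 ^ i * (2 * B.card) := by
      have h2 : count A N ≤ 2 ^ i * (2 * B.card) := hi1.trans (Nat.mul_le_mul_left _ hcard)
      exact_mod_cast h2
    exact hA.trans (mul_le_mul_of_nonneg_left h1 hg.le)
  have h2i : (2 : ℝ) ^ i ≤ (N : ℝ) ^ (1 / 6 : ℝ) := by
    have h1 : ((64 : ℝ) ^ i) ^ (1 / 6 : ℝ) ≤ (N : ℝ) ^ (1 / 6 : ℝ) :=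
      Real.rpow_le_rpow (by positivity) h64' (by norm_num)
    have h2 : ((64 : ℝ) ^ i) ^ (1 / 6 : ℝ) = 2 ^ i := by
      have h3 : (64 : ℝ) ^ i = ((2 : ℝ) ^ i) ^ (6 : ℕ) := by
        rw [← pow_mul, mul_comm, pow_mul]
        norm_num
      rw [h3, ← Real.rpow_natCast, ← Real.rpow_mul (by positivity)]
      norm_num
    rwa [h2] at h1
  have hsqrt : Real.sqrt N = (N : ℝ) ^ (1 / 3 : ℝ) * (N : ℝ) ^ (1 / 6 : ℝ) := by
    rw [← Real.rpow_add (by linarith), Real.sqrt_eq_rpow]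
    norm_num
  have hN6 : 0 < (N : ℝ) ^ (1 / 6 : ℝ) := Real.rpow_pos_of_pos (by linarith) _
  have hB2 : c * (N : ℝ) ^ (1 / 3 : ℝ) / (2 * g) ≤ B.card := by
    rw [div_le_iff₀ (by positivity)]
    have h1 : c * ((N : ℝ) ^ (1 / 3 : ℝ) * (N : ℝ) ^ (1 / 6 : ℝ)) ≤
        g * ((N : ℝ) ^ (1 / 6 : ℝ) * (2 * B.card)) := by
      rw [← hsqrt]
      refine hB1.trans ?_
      gcongr
    have h2 : c * (N : ℝ) ^ (1 / 3 : ℝ) * (N : ℝ) ^ (1 / 6 : ℝ) ≤
        (B.card * (2 * g)) * (N : ℝ) ^ (1 / 6 : ℝ) := by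
      calc _ = c * ((N : ℝ) ^ (1 / 3 : ℝ) * (N : ℝ) ^ (1 / 6 : ℝ)) := by ring
        _ ≤ _ := h1
        _ = _ := by ring
    exact le_of_mul_le_mul_right h2 hN6
  have hB40 : 40 * ((K : ℝ) + 1) ≤ B.card := hbig.trans hB2
  -- the amplitude
  obtain ⟨x, hx⟩ : ∃ x : ℝ, x = (98304 * (K + 1) ^ 2 / c ^ 2) * g ^ 2 / 8 ^ (i + 1) := ⟨_, rfl⟩
  have hx0 : 0 < x := by rw [hx]; positivity
  have hmx : ∀ b ∈ B, x ≤ m b := by
    intro b hb
    obtain ⟨-, hb1, hb2⟩ := hBA b hb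
    have hb0 : 1 ≤ b := by omega
    have hbN : b ≤ N := by
      have : n ≤ N := by rw [hn]; exact Nat.div_le_self _ _
      omega
    have h1 := hmg b hb0 hbN
    have hb0' : (0 : ℝ) < b := by exact_mod_cast hb0
    have h2 : (N : ℝ) / b ≤ 64 ^ (i + 1) := by
      rw [div_le_iff₀ hb0']
      have h3 : N < 64 ^ (i + 1) * b := by
        rw [hn'] at hb1
        rw [mul_comm]
        exact (Nat.div_lt_iff_lt_mul (by positivity)).1 hb1
      have h4 : (N : ℝ) < 64 ^ (i + 1) * b := by exact_mod_cast h3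
      exact h4.le
    have h3 : Real.sqrt (N / b) ≤ 8 ^ (i + 1) := by
      rw [Real.sqrt_le_left (by positivity)]
      refine h2.trans (le_of_eq ?_)
      rw [← pow_mul, mul_comm, pow_mul]
      norm_num
    rw [hx, div_le_iff₀ (by positivity)]
    exact h1.trans (mul_le_mul_of_nonneg_left h3 (by positivity))
  obtain ⟨M, hM⟩ : ∃ M : ℕ, M = min (max 1 ⌊x⌋₊) n := ⟨_, rfl⟩
  have hM1 : 1 ≤ M := by
    rw [hM]
    exact le_min (le_max_left _ _) hn1
  refine ⟨B, M, n, fun b hb => (hBA b hb).1, fun b hb => ⟨by have := (hBA b hb).2.1; omega,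
    (hBA b hb).2.2⟩, hM1, by rw [hM]; exact min_le_right _ _, by rw [hn]; exact Nat.div_le_self _ _,
    ?_, hB2, ?_⟩
  · intro b hb
    rw [hM]
    refine (min_le_left _ _).trans (max_le (hm b) ?_)
    exact Nat.floor_le_of_le (hmx b hb)
  · obtain ⟨T, hT⟩ : ∃ T, T = B.card - 2 * (K + 1) * (B.card / (4 * (K + 1))) := ⟨_, rfl⟩
    have hT2 : B.card ≤ 2 * T := by
      have h1 : B.card / (4 * (K + 1)) * (4 * (K + 1)) ≤ B.card := Nat.div_mul_le_self _ _
      have h2 : 2 * (2 * (K + 1) * (B.card / (4 * (K + 1)))) ≤ B.card := by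
        calc _ = B.card / (4 * (K + 1)) * (4 * (K + 1)) := by ring
          _ ≤ _ := h1
      omega
    rw [← hT]
    have hT2' : (B.card : ℝ) ≤ 2 * T := by exact_mod_cast hT2
    have hgoal : (384 : ℝ) * (K + 1) ^ 2 * n ≤ T ^ 2 * M := by
      rcases le_total n (max 1 ⌊x⌋₊) with h | h
      · have hMn : M = n := by rw [hM]; exact min_eq_right h
        rw [hMn]
        have h1 : (384 : ℝ) * (K + 1) ^ 2 ≤ T ^ 2 := by
          have h2 : 20 * ((K : ℝ) + 1) ≤ T := by linarith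
          have h3 : (20 * ((K : ℝ) + 1)) ^ 2 ≤ T ^ 2 := pow_le_pow_left₀ (by positivity) h2 2
          nlinarith [sq_nonneg ((K : ℝ) + 1)]
        gcongr
      · have hMn : M = max 1 ⌊x⌋₊ := by rw [hM]; exact min_eq_left h
        have hMx : x / 2 ≤ M := by
          rw [hMn]
          rcases lt_or_ge x 1 with hx1 | hx1
          · have h2 : (1 : ℝ) ≤ ((max 1 ⌊x⌋₊ : ℕ) : ℝ) := by exact_mod_cast le_max_left _ _
            linarith
          · have h2 : (⌊x⌋₊ : ℝ) ≤ ((max 1 ⌊x⌋₊ : ℕ) : ℝ) := by exact_mod_cast le_max_right _ _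
            have h3 : (1 : ℝ) ≤ ((max 1 ⌊x⌋₊ : ℕ) : ℝ) := by exact_mod_cast le_max_left _ _
            have h4 := Nat.lt_floor_add_one x
            linarith
        -- `c ^ 2 N ≤ (g 2 ^ i 4 T) ^ 2`
        have h1 : c * Real.sqrt N ≤ g * (2 ^ i * (4 * T)) := by
          refine hB1.trans ?_
          have : (2 : ℝ) * B.card ≤ 4 * T := by linarith
          gcongr
        have h2 : c ^ 2 * N ≤ g ^ 2 * (4 ^ i * (16 * T ^ 2)) := by
          have h3 := pow_le_pow_left₀ (by positivity) h1 2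
          rw [mul_pow, Real.sq_sqrt (by linarith)] at h3
          refine h3.trans (le_of_eq ?_)
          have : (4 : ℝ) ^ i = (2 ^ i) ^ 2 := by rw [← pow_mul, mul_comm, pow_mul]; norm_num
          rw [this]
          ring
        have h4 : c ^ 2 * (64 ^ i * n) ≤ g ^ 2 * (4 ^ i * (16 * T ^ 2)) :=
          le_trans (mul_le_mul_of_nonneg_left h64 (by positivity)) h2
        have h5 : (64 : ℝ) ^ i = 4 ^ i * 16 ^ i := by rw [← mul_pow]; norm_num
        have h6 : c ^ 2 * (16 ^ i * n) ≤ g ^ 2 * (16 * T ^ 2) := by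
          rw [h5] at h4
          have h7 : (4 : ℝ) ^ i * (c ^ 2 * (16 ^ i * n)) ≤ 4 ^ i * (g ^ 2 * (16 * T ^ 2)) := by
            calc _ = c ^ 2 * (4 ^ i * 16 ^ i * n) := by ring
              _ ≤ _ := h4
              _ = _ := by ring
          exact le_of_mul_le_mul_left h7 (by positivity)
        have h8 : (8 : ℝ) ^ (i + 1) ≤ 8 * 16 ^ i := by
          rw [pow_succ, mul_comm]
          gcongr
          norm_num
        -- assemble
        have h9 : (768 : ℝ) * (K + 1) ^ 2 * n ≤ T ^ 2 * x := by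
          have h10 : x = (98304 * (K + 1) ^ 2) * g ^ 2 / (c ^ 2 * 8 ^ (i + 1)) := by
            rw [hx]
            field_simp
          rw [h10, mul_div_assoc', le_div_iff₀ (by positivity)]
          calc (768 : ℝ) * (K + 1) ^ 2 * n * (c ^ 2 * 8 ^ (i + 1))
              ≤ 768 * (K + 1) ^ 2 * n * (c ^ 2 * (8 * 16 ^ i)) := by gcongr
            _ = 6144 * (K + 1) ^ 2 * (c ^ 2 * (16 ^ i * n)) := by ring
            _ ≤ 6144 * (K + 1) ^ 2 * (g ^ 2 * (16 * T ^ 2)) := by gcongr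
            _ = T ^ 2 * (98304 * (K + 1) ^ 2 * g ^ 2) := by ring
        have h11 : (T : ℝ) ^ 2 * (x / 2) ≤ T ^ 2 * M := by gcongr
        linarith
    exact_mod_cast hgoal

end Pool.Agent.J4H48.SM
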