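import Pool.Agent.J4H48.SM.Main

/-!
Bounded perturbations do not change the boundedness of the representation function.
-/

set_option autoImplicit false

open Finset

namespace Pool.Agent.J4H48.SM

theorem rep_shift_le {A : Set ℕ} {x : ℕ → ℕ} {B K : ℕ} (hx : ∀ a, x a ≤ B) (hA : ∀ n, rep A n ≤ K)
    (n : ℕ) : rep (shift A x) n ≤ (2 * B + 1) * K := by
  classical
  have hch : ∀ u, u ∈ shift A x → ∃ a ∈ A, u = a + x a := fun u hu => hu
  choose! α hα1 hα2 using hch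
  obtain ⟨T, hT⟩ : ∃ T : Finset (ℕ × ℕ), T = (range (2 * B + 1)).biUnion
    fun t => (rep_fin A (n - t)).toFinset := ⟨_, rfl⟩
  have hTc : T.card ≤ (2 * B + 1) * K := by
    rw [hT]
    refine card_biUnion_le.trans ?_
    calc ∑ t ∈ range (2 * B + 1), (rep_fin A (n - t)).toFinset.card
        ≤ ∑ _t ∈ range (2 * B + 1), K := by
          refine sum_le_sum fun t _ => ?_
          rw [← Set.ncard_eq_toFinset_card _ (rep_fin A (n - t))]
          exact hA (n - t)
      _ = (2 * B + 1) * K := by rw [sum_const, card_range, smul_eq_mul]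
  refine le_trans ?_ hTc
  unfold rep
  rw [← Set.ncard_coe_finset T]
  refine Set.ncard_le_ncard_of_injOn (fun q => (α q.1, α q.2)) ?_ ?_ (Finset.finite_toSet _)
  · rintro q ⟨h1, h2, h3⟩
    rw [hT, mem_coe, mem_biUnion]
    have e1 := hα2 q.1 h1
    have e2 := hα2 q.2 h2
    have b1 := hx (α q.1)
    have b2 := hx (α q.2)
    refine ⟨x (α q.1) + x (α q.2), mem_range.2 (by omega), ?_⟩
    rw [Set.Finite.mem_toFinset]
    refine ⟨hα1 q.1 h1, hα1 q.2 h2, ?_⟩
    show α q.1 + α q.2 = n - (x (α q.1) + x (α q.2))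
    omega
  · rintro q ⟨h1, h2, -⟩ r ⟨h3, h4, -⟩ hqr
    have h5 : α q.1 = α r.1 := (Prod.ext_iff.1 hqr).1
    have h6 : α q.2 = α r.2 := (Prod.ext_iff.1 hqr).2
    refine Prod.ext ?_ ?_
    · rw [hα2 q.1 h1, hα2 r.1 h3, h5]
    · rw [hα2 q.2 h2, hα2 r.2 h4, h6]

theorem rep_le_shift {A : Set ℕ} {x : ℕ → ℕ} {B K : ℕ} (hx : ∀ a, x a ≤ B)
    (hA : ∀ n, rep (shift A x) n ≤ K) (n : ℕ) :
    rep A n ≤ (2 * B + 1) * K * ((B + 1) * (B + 1)) := by
  classical
  obtain ⟨T, hT⟩ : ∃ T : Finset (ℕ × ℕ), T = (range (2 * B + 1)).biUnion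
    fun t => (rep_fin (shift A x) (n + t)).toFinset := ⟨_, rfl⟩
  have hTc : T.card ≤ (2 * B + 1) * K := by
    rw [hT]
    refine card_biUnion_le.trans ?_
    calc ∑ t ∈ range (2 * B + 1), (rep_fin (shift A x) (n + t)).toFinset.card
        ≤ ∑ _t ∈ range (2 * B + 1), K := by
          refine sum_le_sum fun t _ => ?_
          rw [← Set.ncard_eq_toFinset_card _ (rep_fin (shift A x) (n + t))]
          exact hA (n + t)
      _ = (2 * B + 1) * K := by rw [sum_const, card_range, smul_eq_mul]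
  obtain ⟨U, hU⟩ : ∃ U : Finset ((ℕ × ℕ) × (ℕ × ℕ)), U = T ×ˢ (range (B + 1) ×ˢ range (B + 1)) :=
    ⟨_, rfl⟩
  have hUc : U.card ≤ (2 * B + 1) * K * ((B + 1) * (B + 1)) := by
    rw [hU, card_product, card_product, card_range]
    exact Nat.mul_le_mul_right _ hTc
  refine le_trans ?_ hUc
  unfold rep
  rw [← Set.ncard_coe_finset U]
  refine Set.ncard_le_ncard_of_injOn
    (fun q => ((q.1 + x q.1, q.2 + x q.2), (x q.1, x q.2))) ?_ ?_ (Finset.finite_toSet _)
  · rintro q ⟨h1, h2, h3⟩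
    have b1 := hx q.1
    have b2 := hx q.2
    rw [hU, mem_coe, mem_product, mem_product, mem_range, mem_range]
    refine ⟨?_, by show x q.1 < B + 1; omega, by show x q.2 < B + 1; omega⟩
    rw [hT, mem_biUnion]
    refine ⟨x q.1 + x q.2, mem_range.2 (by omega), ?_⟩
    rw [Set.Finite.mem_toFinset]
    refine ⟨⟨q.1, h1, rfl⟩, ⟨q.2, h2, rfl⟩, ?_⟩
    show q.1 + x q.1 + (q.2 + x q.2) = n + (x q.1 + x q.2)
    omega
  · rintro q - r - hqr
    obtain ⟨h1, h2⟩ := Prod.ext_iff.1 hqr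
    obtain ⟨h3, h4⟩ := Prod.ext_iff.1 h1
    obtain ⟨h5, h6⟩ := Prod.ext_iff.1 h2
    have h3' : q.1 + x q.1 = r.1 + x r.1 := h3
    have h4' : q.2 + x q.2 = r.2 + x r.2 := h4
    have h5' : x q.1 = x r.1 := h5
    have h6' : x q.2 = x r.2 := h6
    exact Prod.ext (by omega) (by omega)

theorem bounded_iff (A : Set ℕ) (x : ℕ → ℕ) (B : ℕ) (hx : ∀ a, x a ≤ B) :
    (∀ K, ∃ n, K < rep (shift A x) n) ↔ ∀ K, ∃ n, K < rep A n := by
  constructor
  · intro h K
    by_contra hcon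
    push Not at hcon
    obtain ⟨n, hn⟩ := h ((2 * B + 1) * K)
    exact absurd (rep_shift_le hx hcon n) (not_le.2 hn)
  · intro h K
    by_contra hcon
    push Not at hcon
    obtain ⟨n, hn⟩ := h ((2 * B + 1) * K * ((B + 1) * (B + 1)))
    exact absurd (rep_le_shift hx hcon n) (not_le.2 hn)

end Pool.Agent.J4H48.SM
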