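import Pool.Agent.J4H48.SM.Core

/-!
The representation functions of randomly perturbed sets.
-/

set_option autoImplicit false

open Finset MeasureTheory ProbabilityTheory Filter

namespace Pool.Agent.J4H48.SM

/-- the number of the ordered pairs of elements of `A` with sum `n` -/
noncomputable def rep (A : Set ℕ) (n : ℕ) : ℕ := {q : ℕ × ℕ | q.1 ∈ A ∧ q.2 ∈ A ∧ q.1 + q.2 = n}.ncard

theorem rep_fin (A : Set ℕ) (n : ℕ) : {q : ℕ × ℕ | q.1 ∈ A ∧ q.2 ∈ A ∧ q.1 + q.2 = n}.Finite :=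
  (Finset.finite_toSet (antidiagonal n)).subset fun _ hq => mem_coe.2 (mem_antidiagonal.2 hq.2.2)

/-- the set `{a + x a | a ∈ A}` -/
def shift (A : Set ℕ) (x : ℕ → ℕ) : Set ℕ := {n | ∃ a ∈ A, n = a + x a}

/-- independent random variables `ξ a` with values in `{0, …, m a - 1}`, each of these values taken
with probability at least `κ / m a` -/
structure Noise {Ω : Type*} [MeasurableSpace Ω] (μ : Measure Ω) (m : ℕ → ℕ) (κ : ℝ)
    (ξ : ℕ → Ω → ℕ) : Prop where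
  meas : ∀ a, Measurable (ξ a)
  indep : iIndepFun ξ μ
  lt : ∀ a ω, ξ a ω < m a
  prob : ∀ a, ∀ x < m a, κ / m a ≤ μ.real {ω | ξ a ω = x}

theorem bad_of (A : Set ℕ) (B : Finset ℕ) (hB : ∀ b ∈ B, b ∈ A) {Ω : Type*} (ξ : ℕ → Ω → ℕ) (K : ℕ) :
    {ω | ∀ n, rep (shift A fun a => ξ a ω) n ≤ K} ⊆ Bad ξ B K := by
  intro ω hω n
  refine le_trans (Set.ncard_le_ncard ?_ (rep_fin _ n)) (hω n)
  rintro q ⟨⟨a, ha, h1⟩, ⟨b, hb, h2⟩, h3⟩
  exact ⟨⟨a, hB a ha, h1⟩, ⟨b, hB b hb, h2⟩, h3⟩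

theorem sup_le {m : ℕ → ℕ} (hm : ∀ ε : ℝ, 0 < ε → ∀ᶠ a : ℕ in atTop, (m a : ℝ) ≤ (a : ℝ) ^ ε)
    (ε : ℝ) (hε : 0 < ε) : ∀ᶠ N : ℕ in atTop, ∀ b : ℕ, b ≤ N → (m b : ℝ) ≤ (N : ℝ) ^ ε := by
  obtain ⟨a0, h0⟩ := eventually_atTop.1 (hm ε hε)
  have hlim : Tendsto (fun N : ℕ => (N : ℝ) ^ ε) atTop atTop :=
    (tendsto_rpow_atTop hε).comp tendsto_natCast_atTop_atTop
  obtain ⟨C, hC⟩ : ∃ C : ℝ, ∀ b < a0, (m b : ℝ) ≤ C := by
    refine ⟨∑ b ∈ range a0, (m b : ℝ), fun b hb => ?_⟩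
    exact single_le_sum (f := fun b => (m b : ℝ)) (fun i _ => by positivity) (mem_range.2 hb)
  filter_upwards [hlim.eventually_ge_atTop C] with N hN b hb
  rcases Nat.lt_or_ge b a0 with h | h
  · exact (hC b h).trans hN
  · refine (h0 b h).trans ?_
    exact Real.rpow_le_rpow (by positivity) (by exact_mod_cast hb) hε.le

theorem null {Ω : Type*} [MeasurableSpace Ω] {μ : Measure Ω} [IsProbabilityMeasure μ]
    {m : ℕ → ℕ} {κ : ℝ} {ξ : ℕ → Ω → ℕ} (hn : Noise μ m κ ξ) (hκ : 0 < κ) (hm1 : ∀ a, 1 ≤ m a)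
    (hm : ∀ ε : ℝ, 0 < ε → ∀ᶠ a : ℕ in atTop, (m a : ℝ) ≤ (a : ℝ) ^ ε)
    (g : ℕ → ℝ) (hg : ∀ᶠ N in atTop, 0 < g N)
    (hmg : ∀ C : ℝ, ∀ᶠ N : ℕ in atTop, ∀ n : ℕ, 1 ≤ n → n ≤ N →
      C * g N ^ 2 ≤ m n * Real.sqrt (N / n))
    (A : Set ℕ) (c : ℝ) (hc : 0 < c)
    (hA : ∃ᶠ N : ℕ in atTop, c * Real.sqrt N ≤ g N * count A N) (K : ℕ) :
    μ {ω | ∀ n, rep (shift A fun a => ξ a ω) n ≤ K} = 0 := by
  have hK0 : (0 : ℝ) < K + 1 := by positivity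
  obtain ⟨ε, hε⟩ : ∃ ε : ℝ, ε = 1 / (24 * (K + 1)) := ⟨_, rfl⟩
  have hε0 : 0 < ε := by rw [hε]; positivity
  have hε1 : ε ≤ 1 / 24 := by
    rw [hε]
    apply one_div_le_one_div_of_le (by norm_num)
    have : (0 : ℝ) ≤ K := by positivity
    linarith
  obtain ⟨κ', hκ'⟩ : ∃ κ' : ℝ, κ' = min κ 1 := ⟨_, rfl⟩
  have hκ0 : 0 < κ' := by rw [hκ']; exact lt_min hκ one_pos
  have hκ1 : κ' ≤ 1 := by rw [hκ']; exact min_le_right _ _
  have hκκ : κ' ≤ κ := by rw [hκ']; exact min_le_left _ _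
  -- constants
  obtain ⟨D, hD⟩ : ∃ D : ℝ, D = κ' ^ (2 * (K + 1)) * (c / (8 * (K + 1))) := ⟨_, rfl⟩
  have hD0 : 0 < D := by rw [hD]; positivity
  have hlim : ∀ δ : ℝ, 0 < δ → Tendsto (fun N : ℕ => (N : ℝ) ^ δ) atTop atTop := fun δ hδ =>
    (tendsto_rpow_atTop hδ).comp tendsto_natCast_atTop_atTop
  -- it is enough to find arbitrarily good bounds
  have hmain : ∀ L : ℝ, μ {ω | ∀ n, rep (shift A fun a => ξ a ω) n ≤ K} ≤
      ENNReal.ofReal (Real.exp (-L)) := by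
    intro L
    obtain ⟨N, hN⟩ := (hA.and_eventually ((sup_le hm ε hε0).and (hg.and ((hmg 1).and
      ((hmg (98304 * (K + 1) ^ 2 / c ^ 2)).and ((eventually_ge_atTop 1).and
      (((hlim (5 / 24) (by norm_num)).eventually_ge_atTop ((L + 1) / D)).and
      ((hlim (7 / 24) (by norm_num)).eventually_ge_atTop (80 * (K + 1) / c))))))))).exists
    obtain ⟨hN1, hN2, hN3, hN4, hN5, hN6, hN7, hN8⟩ := hN
    have hNr : (1 : ℝ) ≤ N := by exact_mod_cast hN6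
    have hN0 : (0 : ℝ) < N := by linarith
    have hNε : 1 ≤ (N : ℝ) ^ ε := Real.one_le_rpow hNr hε0.le
    have hgN : g N ≤ (N : ℝ) ^ ε := by
      have h1 := hN4 N hN6 le_rfl
      have h2 := hN2 N le_rfl
      rw [div_self hN0.ne', Real.sqrt_one, mul_one, one_mul] at h1
      by_contra hlt
      push Not at hlt
      nlinarith
    have hg24 : g N ≤ (N : ℝ) ^ (1 / 24 : ℝ) :=
      hgN.trans (Real.rpow_le_rpow_of_exponent_le hNr hε1)
    have hpow : (N : ℝ) ^ (1 / 3 : ℝ) = (N : ℝ) ^ (7 / 24 : ℝ) * (N : ℝ) ^ (1 / 24 : ℝ) := by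
      rw [← Real.rpow_add hN0]
      norm_num
    have h7 : c / 2 * (N : ℝ) ^ (7 / 24 : ℝ) ≤ c * (N : ℝ) ^ (1 / 3 : ℝ) / (2 * g N) := by
      rw [le_div_iff₀ (by positivity), hpow]
      have h8 : 0 < (N : ℝ) ^ (7 / 24 : ℝ) := Real.rpow_pos_of_pos hN0 _
      calc c / 2 * (N : ℝ) ^ (7 / 24 : ℝ) * (2 * g N) = c * (N : ℝ) ^ (7 / 24 : ℝ) * g N := by ring
        _ ≤ c * (N : ℝ) ^ (7 / 24 : ℝ) * (N : ℝ) ^ (1 / 24 : ℝ) := by gcongr
        _ = _ := by ring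
    have hbig : 40 * ((K : ℝ) + 1) ≤ c * (N : ℝ) ^ (1 / 3 : ℝ) / (2 * g N) := by
      refine le_trans ?_ h7
      rw [div_le_iff₀ hc] at hN8
      linarith
    obtain ⟨B, M, n, hBA, hBn, hM1, hMn, hnN, hMm, hBc, hcond⟩ :=
      core A m hm1 K N c (g N) hc hN3 hN6 hN1 hN5 hbig
    -- the probability
    obtain ⟨p, hp⟩ : ∃ p : ℝ, p = κ' / (N : ℝ) ^ ε := ⟨_, rfl⟩
    have hp0 : 0 < p := by rw [hp]; positivity
    have hp1 : p ≤ 1 := by
      rw [hp, div_le_one (by positivity)]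
      linarith
    have hpm : ∀ b ∈ B, ∀ x < M, p ≤ μ.real {ω | ξ b ω = x} := by
      intro b hb x hx
      refine le_trans ?_ (hn.prob b x (lt_of_lt_of_le hx (hMm b hb)))
      rw [hp]
      have hmb : (0 : ℝ) < m b := by exact_mod_cast hm1 b
      have h1 : (m b : ℝ) ≤ (N : ℝ) ^ ε := hN2 b ((hBn b hb).2.trans hnN)
      gcongr
    have hbad := bad_le hn.indep hn.meas n M K p hp0.le hp1 hM1 hMn
      (B.card / (4 * (K + 1))) B hBn hpm hcond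
    -- the exponent
    have hP : p ^ (2 * (K + 1)) = κ' ^ (2 * (K + 1)) * (N : ℝ) ^ (-(1 / 12) : ℝ) := by
      rw [hp, div_pow, Real.rpow_neg hN0.le, ← div_eq_mul_inv]
      congr 1
      rw [← Real.rpow_natCast, ← Real.rpow_mul hN0.le]
      congr 1
      push_cast
      rw [hε]
      field_simp
      norm_num
    have hr : c / (8 * (K + 1)) * (N : ℝ) ^ (7 / 24 : ℝ) - 1 ≤
        ((B.card / (4 * (K + 1)) : ℕ) : ℝ) := by
      have h1 : (B.card : ℝ) / ((4 * (K + 1) : ℕ) : ℝ) < (B.card / (4 * (K + 1)) : ℕ) + 1 := by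
        rw [div_lt_iff₀ (by positivity)]
        have h9 := Nat.div_add_mod B.card (4 * (K + 1))
        have h10 := Nat.mod_lt B.card (show 4 * (K + 1) > 0 by omega)
        have h11 : B.card < (B.card / (4 * (K + 1)) + 1) * (4 * (K + 1)) := by
          calc B.card = 4 * (K + 1) * (B.card / (4 * (K + 1))) + B.card % (4 * (K + 1)) := h9.symm
            _ < 4 * (K + 1) * (B.card / (4 * (K + 1))) + 4 * (K + 1) := by omega
            _ = _ := by ring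
        exact_mod_cast h11
      have h2 : c / (8 * (K + 1)) * (N : ℝ) ^ (7 / 24 : ℝ) ≤
          (B.card : ℝ) / ((4 * (K + 1) : ℕ) : ℝ) := by
        have h3 := h7.trans hBc
        rw [le_div_iff₀ (by positivity)]
        push_cast
        calc c / (8 * (K + 1)) * (N : ℝ) ^ (7 / 24 : ℝ) * (4 * (K + 1))
            = c / 2 * (N : ℝ) ^ (7 / 24 : ℝ) := by field_simp; norm_num
          _ ≤ _ := h3
      linarith
    have hexp : L ≤ p ^ (2 * (K + 1)) * ((B.card / (4 * (K + 1)) : ℕ) : ℝ) := by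
      have h1 : p ^ (2 * (K + 1)) * (c / (8 * (K + 1)) * (N : ℝ) ^ (7 / 24 : ℝ) - 1) ≤
          p ^ (2 * (K + 1)) * ((B.card / (4 * (K + 1)) : ℕ) : ℝ) :=
        mul_le_mul_of_nonneg_left hr (by positivity)
      refine le_trans ?_ h1
      have h2 : p ^ (2 * (K + 1)) * (c / (8 * (K + 1)) * (N : ℝ) ^ (7 / 24 : ℝ)) =
          D * (N : ℝ) ^ (5 / 24 : ℝ) := by
        rw [hP, hD]
        have h3 : (N : ℝ) ^ (-(1 / 12) : ℝ) * (N : ℝ) ^ (7 / 24 : ℝ) = (N : ℝ) ^ (5 / 24 : ℝ) := by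
          rw [← Real.rpow_add hN0]
          norm_num
        rw [← h3]
        ring
      have h4 : p ^ (2 * (K + 1)) ≤ 1 := pow_le_one₀ hp0.le hp1
      rw [mul_sub, h2, mul_one]
      rw [div_le_iff₀ hD0] at hN7
      linarith
    have hfin : μ.real (Bad ξ B K) ≤ Real.exp (-L) := by
      refine hbad.trans ?_
      have h1 : 1 - p ^ (2 * (K + 1)) ≤ Real.exp (-(p ^ (2 * (K + 1)))) := by
        have := Real.add_one_le_exp (-(p ^ (2 * (K + 1))))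
        linarith
      have h2 : 0 ≤ 1 - p ^ (2 * (K + 1)) := by
        have : p ^ (2 * (K + 1)) ≤ 1 := pow_le_one₀ hp0.le hp1
        linarith
      refine (pow_le_pow_left₀ h2 h1 _).trans ?_
      rw [← Real.exp_nat_mul]
      apply Real.exp_le_exp.2
      linarith
    calc μ {ω | ∀ n, rep (shift A fun a => ξ a ω) n ≤ K} ≤ μ (Bad ξ B K) :=
          measure_mono (bad_of A B hBA ξ K)
      _ = ENNReal.ofReal (μ.real (Bad ξ B K)) := (ENNReal.ofReal_toReal (measure_ne_top _ _)).symm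
      _ ≤ _ := ENNReal.ofReal_le_ofReal hfin
  have hlim0 : Tendsto (fun L : ℝ => ENNReal.ofReal (Real.exp (-L))) atTop (nhds 0) := by
    have h1 : Tendsto (fun L : ℝ => Real.exp (-L)) atTop (nhds 0) := Real.tendsto_exp_neg_atTop_nhds_zero
    have h2 := ENNReal.tendsto_ofReal h1
    rwa [ENNReal.ofReal_zero] at h2
  exact nonpos_iff_eq_zero.1 (ge_of_tendsto' hlim0 hmain)

theorem ae_unbounded {Ω : Type*} [MeasurableSpace Ω] {μ : Measure Ω} [IsProbabilityMeasure μ]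
    {m : ℕ → ℕ} {κ : ℝ} {ξ : ℕ → Ω → ℕ} (hn : Noise μ m κ ξ) (hκ : 0 < κ) (hm1 : ∀ a, 1 ≤ m a)
    (hm : ∀ ε : ℝ, 0 < ε → ∀ᶠ a : ℕ in atTop, (m a : ℝ) ≤ (a : ℝ) ^ ε)
    (g : ℕ → ℝ) (hg : ∀ᶠ N in atTop, 0 < g N)
    (hmg : ∀ C : ℝ, ∀ᶠ N : ℕ in atTop, ∀ n : ℕ, 1 ≤ n → n ≤ N →
      C * g N ^ 2 ≤ m n * Real.sqrt (N / n))
    (A : Set ℕ) (c : ℝ) (hc : 0 < c)
    (hA : ∃ᶠ N : ℕ in atTop, c * Real.sqrt N ≤ g N * count A N) :
    ∀ᵐ ω ∂μ, ∀ K, ∃ n, K < rep (shift A fun a => ξ a ω) n := by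
  rw [ae_all_iff]
  intro K
  have h := null hn hκ hm1 hm g hg hmg A c hc hA K
  rw [ae_iff]
  refine measure_mono_null ?_ h
  intro ω hω n
  by_contra hcon
  push Not at hcon
  exact hω ⟨n, hcon⟩

/-- a function `g → ∞` which depends only on the amplitudes -/
theorem exists_g {m : ℕ → ℕ} (hm1 : ∀ a, 1 ≤ m a) (hm : Tendsto m atTop atTop) :
    ∃ g : ℕ → ℝ, Tendsto g atTop atTop ∧ ∀ C : ℝ, ∀ᶠ N : ℕ in atTop, ∀ n : ℕ, 1 ≤ n → n ≤ N →
      C * g N ^ 2 ≤ m n * Real.sqrt (N / n) := by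
  let I : ℕ → ℝ := fun N => if h : 1 ≤ N then
    (Icc 1 N).inf' ⟨1, mem_Icc.2 ⟨le_rfl, h⟩⟩ (fun n => (m n : ℝ) * Real.sqrt (N / n)) else 1
  have hI : ∀ N, 1 ≤ N → ∀ n, 1 ≤ n → n ≤ N → I N ≤ (m n : ℝ) * Real.sqrt (N / n) := by
    intro N hN n h1 h2
    simp only [I, dif_pos hN]
    exact inf'_le _ (mem_Icc.2 ⟨h1, h2⟩)
  have hle : ∀ N, 1 ≤ N → ∀ L : ℝ, (∀ n, 1 ≤ n → n ≤ N → L ≤ (m n : ℝ) * Real.sqrt (N / n)) →
      L ≤ I N := by
    intro N hN L h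
    simp only [I, dif_pos hN]
    exact le_inf' _ _ fun n hn => h n (mem_Icc.1 hn).1 (mem_Icc.1 hn).2
  have hlim : Tendsto I atTop atTop := by
    rw [tendsto_atTop]
    intro L
    obtain ⟨n0, h0⟩ := eventually_atTop.1 (hm.eventually_ge_atTop ⌈L⌉₊)
    filter_upwards [eventually_ge_atTop 1, eventually_ge_atTop (n0 * ⌈L ^ 2⌉₊)] with N h1 h2
    refine hle N h1 L fun n h3 h4 => ?_
    have hn0 : (0 : ℝ) < n := by exact_mod_cast h3
    have hNn : (1 : ℝ) ≤ N / n := by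
      rw [le_div_iff₀ hn0, one_mul]
      exact_mod_cast h4
    rcases Nat.lt_or_ge n n0 with h | h
    · have h5 : L ≤ Real.sqrt (N / n) := by
        apply Real.le_sqrt_of_sq_le
        rw [le_div_iff₀ hn0]
        have h6 : (n0 : ℝ) * (⌈L ^ 2⌉₊ : ℝ) ≤ N := by exact_mod_cast h2
        have h7 : L ^ 2 ≤ ⌈L ^ 2⌉₊ := Nat.le_ceil _
        have h8 : (n : ℝ) ≤ n0 := by exact_mod_cast h.le
        calc L ^ 2 * n ≤ ⌈L ^ 2⌉₊ * n0 := by gcongr
          _ ≤ N := by linarith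
      have h6 : (1 : ℝ) ≤ m n := by exact_mod_cast hm1 n
      have h7 : 0 ≤ Real.sqrt (N / n) := Real.sqrt_nonneg _
      nlinarith
    · have h5 : L ≤ m n := (Nat.le_ceil L).trans (by exact_mod_cast h0 n h)
      have h6 : 1 ≤ Real.sqrt (N / n) := by
        rw [Real.one_le_sqrt]
        exact hNn
      have h7 : (0 : ℝ) ≤ m n := by positivity
      nlinarith
  refine ⟨fun N => Real.sqrt (Real.sqrt (I N)), ?_, ?_⟩
  · exact Real.tendsto_sqrt_atTop.comp (Real.tendsto_sqrt_atTop.comp hlim)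
  · intro C
    filter_upwards [eventually_ge_atTop 1, hlim.eventually_ge_atTop (C ^ 2)] with N h1 h2 n h3 h4
    refine le_trans ?_ (hI N h1 n h3 h4)
    have h5 : 0 ≤ I N := (sq_nonneg C).trans h2
    rw [Real.sq_sqrt (Real.sqrt_nonneg _)]
    have h6 : C ≤ Real.sqrt (I N) := Real.le_sqrt_of_sq_le h2
    calc C * Real.sqrt (I N) ≤ Real.sqrt (I N) * Real.sqrt (I N) :=
          mul_le_mul_of_nonneg_right h6 (Real.sqrt_nonneg _)
      _ = I N := Real.mul_self_sqrt h5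

end Pool.Agent.J4H48.SM
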