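import Mathlib

/-!
Matchings of pairs with sums in a short window.
-/

set_option autoImplicit false

open Finset

namespace Pool.Agent.J4H48.SM

/-- pairwise disjoint pairs -/
def Dis (S : Finset (ℕ × ℕ)) : Prop :=
  ∀ e ∈ S, ∀ f ∈ S, e ≠ f → e.1 ≠ f.1 ∧ e.1 ≠ f.2 ∧ e.2 ≠ f.1 ∧ e.2 ≠ f.2

theorem matching (E : Finset (ℕ × ℕ)) (D : ℕ) (hD : 1 ≤ D)
    (h1 : ∀ v, (E.filter fun e => e.1 = v).card ≤ D)
    (h2 : ∀ v, (E.filter fun e => e.2 = v).card ≤ D) :
    ∀ k : ℕ, 4 * D * k ≤ E.card → ∃ S ⊆ E, S.card = k ∧ Dis S := by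
  intro k
  induction k with
  | zero =>
    intro _
    exact ⟨∅, empty_subset _, rfl, fun e he => absurd he (notMem_empty e)⟩
  | succ k ih =>
    intro hk
    obtain ⟨S, hSE, hS, hd⟩ := ih (by nlinarith)
    let V : Finset ℕ := S.image Prod.fst ∪ S.image Prod.snd
    have hV : V.card ≤ 2 * k := by
      calc V.card ≤ (S.image Prod.fst).card + (S.image Prod.snd).card := card_union_le _ _
        _ ≤ S.card + S.card := add_le_add card_image_le card_image_le
        _ = 2 * k := by omega
    let E' := E.filter fun e => e.1 ∉ V ∧ e.2 ∉ V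
    have hsub : E \ E' ⊆ V.biUnion fun v => (E.filter fun e => e.1 = v) ∪ (E.filter fun e => e.2 = v) := by
      intro e he
      rw [mem_sdiff, mem_filter, not_and, not_and_or, not_not, not_not] at he
      obtain ⟨he1, he2⟩ := he
      rw [mem_biUnion]
      rcases he2 he1 with h | h
      · exact ⟨_, h, mem_union_left _ (mem_filter.2 ⟨he1, rfl⟩)⟩
      · exact ⟨_, h, mem_union_right _ (mem_filter.2 ⟨he1, rfl⟩)⟩
    have hcard : (E \ E').card ≤ V.card * (2 * D) := by
      refine (card_le_card hsub).trans (card_biUnion_le_card_mul _ _ _ fun v _ => ?_)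
      refine (card_union_le _ _).trans ?_
      have := h1 v
      have := h2 v
      omega
    have h3 : (E \ E').card = E.card - E'.card := card_sdiff_of_subset (filter_subset _ _)
    have h4 : 0 < E'.card := by
      by_contra h0
      have h5 : E'.card = 0 := by omega
      rw [h5] at h3
      have h6 : V.card * (2 * D) ≤ 2 * k * (2 * D) := Nat.mul_le_mul_right _ hV
      have : 4 * D * (k + 1) ≤ 2 * k * (2 * D) := by omega
      nlinarith
    obtain ⟨e, he⟩ := card_pos.1 h4
    have heE := (mem_filter.1 he).1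
    have he' := (mem_filter.1 he).2
    have hnV : ∀ f ∈ S, f.1 ∈ V ∧ f.2 ∈ V := fun f hf =>
      ⟨mem_union_left _ (mem_image_of_mem _ hf), mem_union_right _ (mem_image_of_mem _ hf)⟩
    have heS : e ∉ S := fun h => he'.1 (hnV e h).1
    refine ⟨insert e S, insert_subset heE hSE, by rw [card_insert_of_notMem heS, hS], ?_⟩
    intro a ha b hb hab
    rw [mem_insert] at ha hb
    rcases ha with rfl | ha <;> rcases hb with rfl | hb
    · exact absurd rfl hab
    · have := hnV b hb
      exact ⟨fun h => he'.1 (h ▸ this.1), fun h => he'.1 (h ▸ this.2),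
        fun h => he'.2 (h ▸ this.1), fun h => he'.2 (h ▸ this.2)⟩
    · have := hnV a ha
      exact ⟨fun h => he'.1 (h ▸ this.1), fun h => he'.2 (h ▸ this.1),
        fun h => he'.1 (h ▸ this.2), fun h => he'.2 (h ▸ this.2)⟩
    · exact hd a ha b hb hab

/-- a set of `K` disjoint pairs of elements of `B` whose sums lie in a window of length `M` -/
structure Fam (B : Finset ℕ) (M K : ℕ) (S : Finset (ℕ × ℕ)) (n : ℕ) : Prop where
  card : S.card = K
  mem : ∀ e ∈ S, e.1 ∈ B ∧ e.2 ∈ B ∧ e.1 ≠ e.2
  dis : Dis S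
  win : ∀ e ∈ S, e.1 + e.2 ≤ n ∧ n < e.1 + e.2 + M

theorem offdiag_deg1 (B : Finset ℕ) (p : ℕ × ℕ → Prop) [DecidablePred p] (v : ℕ) (C : Finset ℕ)
    (h : ∀ b ∈ B, p (v, b) → b ∈ C) :
    ((B.offDiag.filter p).filter fun e => e.1 = v).card ≤ C.card := by
  refine card_le_card_of_injOn (fun e => e.2) ?_ ?_
  · intro e he
    rw [mem_coe, mem_filter, mem_filter, mem_offDiag] at he
    have : e = (v, e.2) := Prod.ext he.2 rfl
    exact h e.2 he.1.1.2.1 (this ▸ he.1.2)
  · intro a ha b hb hab
    rw [mem_coe, mem_filter] at ha hb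
    exact Prod.ext (ha.2.trans hb.2.symm) hab

theorem offdiag_deg2 (B : Finset ℕ) (p : ℕ × ℕ → Prop) [DecidablePred p] (v : ℕ) (C : Finset ℕ)
    (h : ∀ b ∈ B, p (b, v) → b ∈ C) :
    ((B.offDiag.filter p).filter fun e => e.2 = v).card ≤ C.card := by
  refine card_le_card_of_injOn (fun e => e.1) ?_ ?_
  · intro e he
    rw [mem_coe, mem_filter, mem_filter, mem_offDiag] at he
    have : e = (e.1, v) := Prod.ext rfl he.2
    exact h e.1 he.1.1.1 (this ▸ he.1.2)
  · intro a ha b hb hab
    rw [mem_coe, mem_filter] at ha hb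
    exact Prod.ext hab (ha.2.trans hb.2.symm)

theorem window (B : Finset ℕ) (N M K : ℕ) (hB : ∀ b ∈ B, 1 ≤ b ∧ b ≤ N) (hM : 1 ≤ M) (hMN : M ≤ N)
    (hK : 1 ≤ K) (h : 384 * K ^ 2 * N ≤ B.card ^ 2 * M) :
    ∃ (S : Finset (ℕ × ℕ)) (n : ℕ), Fam B M K S n := by
  obtain ⟨L, hL⟩ : ∃ L : ℕ, L = (M + 1) / 2 := ⟨_, rfl⟩
  have hL1 : 1 ≤ L := by omega
  have hLM : 2 * L ≤ M + 1 := by omega
  have hML : M ≤ 2 * L := by omega
  have hN : 1 ≤ N := hM.trans hMN
  by_cases hblock : ∃ j, 4 * K + 1 ≤ (B.filter fun b => b / L = j).card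
  · obtain ⟨j, hj⟩ := hblock
    let C := B.filter fun b => b / L = j
    have hCB : ∀ c ∈ C, c ∈ B ∧ c / L = j := fun c hc => mem_filter.1 hc
    have hd1 : ∀ v, (C.offDiag.filter fun e => e.1 = v).card ≤ C.card := fun v => by
      have := offdiag_deg1 C (fun _ => True) v C fun b hb _ => hb
      simpa using this
    have hd2 : ∀ v, (C.offDiag.filter fun e => e.2 = v).card ≤ C.card := fun v => by
      have := offdiag_deg2 C (fun _ => True) v C fun b hb _ => hb
      simpa using this
    have hcard : 4 * C.card * K ≤ C.offDiag.card := by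
      rw [offDiag_card]
      have hj' : 4 * K + 1 ≤ C.card := hj
      have h1 : C.card * (4 * K + 1) ≤ C.card * C.card := Nat.mul_le_mul_left _ hj'
      have h2 : C.card * (4 * K + 1) = 4 * C.card * K + C.card := by ring
      omega
    have hC1 : 1 ≤ C.card := by
      have : 4 * K + 1 ≤ C.card := hj
      omega
    obtain ⟨S, hS, hSc, hSd⟩ := matching C.offDiag C.card hC1 hd1 hd2 K hcard
    refine ⟨S, 2 * (j * L) + 2 * (L - 1), hSc, ?_, hSd, ?_⟩
    · intro e he
      have := mem_offDiag.1 (hS he)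
      exact ⟨(hCB _ this.1).1, (hCB _ this.2.1).1, this.2.2⟩
    · intro e he
      have h0 := mem_offDiag.1 (hS he)
      have h1 := (hCB _ h0.1).2
      have h2 := (hCB _ h0.2.1).2
      have h3 := Nat.div_add_mod e.1 L
      have h4 := Nat.mod_lt e.1 hL1
      have h5 := Nat.div_add_mod e.2 L
      have h6 := Nat.mod_lt e.2 hL1
      rw [h1, mul_comm] at h3
      rw [h2, mul_comm] at h5
      constructor <;> omega
  · push Not at hblock
    have hBc : 2 ≤ B.card := by
      by_contra h0
      have h1 : B.card ^ 2 ≤ 1 := by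
        have : B.card ≤ 1 := by omega
        calc B.card ^ 2 ≤ 1 ^ 2 := Nat.pow_le_pow_left this 2
          _ = 1 := by norm_num
      have h2 : B.card ^ 2 * M ≤ 1 * M := Nat.mul_le_mul_right _ h1
      have h3 : 1 ≤ K ^ 2 := Nat.one_le_pow _ _ hK
      nlinarith
    let t := range (2 * N / L + 1)
    have hmaps : ∀ e ∈ B.offDiag, (e.1 + e.2) / L ∈ t := by
      intro e he
      have h0 := mem_offDiag.1 he
      have h1 := (hB _ h0.1).2
      have h2 := (hB _ h0.2.1).2
      rw [mem_range, Nat.lt_succ_iff]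
      exact Nat.div_le_div_right (by omega)
    have hoff : B.card ^ 2 ≤ 2 * B.offDiag.card := by
      rw [offDiag_card]
      have : 2 * B.card ≤ B.card * B.card := Nat.mul_le_mul_right _ hBc
      rw [pow_two]
      omega
    have hpig : t.card * (32 * K ^ 2) ≤ B.offDiag.card := by
      rw [card_range]
      have h1 : (2 * N / L + 1) * L ≤ 3 * N := by
        have := Nat.div_mul_le_self (2 * N) L
        have hLN : L ≤ N := by omega
        nlinarith
      have h2 : (2 * N / L + 1) * (32 * K ^ 2) * L ≤ B.offDiag.card * L := by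
        calc (2 * N / L + 1) * (32 * K ^ 2) * L = (2 * N / L + 1) * L * (32 * K ^ 2) := by ring
          _ ≤ 3 * N * (32 * K ^ 2) := Nat.mul_le_mul_right _ h1
          _ ≤ B.offDiag.card * L := by
            have h3 : B.card ^ 2 * M ≤ 2 * B.offDiag.card * (2 * L) := Nat.mul_le_mul hoff hML
            nlinarith
      exact Nat.le_of_mul_le_mul_right h2 hL1
    obtain ⟨w, -, hw⟩ := exists_le_card_fiber_of_mul_le_card_of_maps_to hmaps
      ⟨0, mem_range.2 (Nat.succ_pos _)⟩ hpig
    have hcov : ∀ v b : ℕ, b ∈ B → (v + b) / L = w →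
        b ∈ (B.filter fun b => b / L = (w * L - v) / L) ∪
          (B.filter fun b => b / L = (w * L - v) / L + 1) := by
      intro v b hb hvb
      have h3 := Nat.div_add_mod (v + b) L
      have h4 := Nat.mod_lt (v + b) hL1
      rw [hvb, mul_comm] at h3
      have h5 : w * L - v ≤ b := by omega
      have h6 : b < (w * L - v) + L := by omega
      have h7 : (w * L - v) / L ≤ b / L := Nat.div_le_div_right h5
      have h8 : b / L < (w * L - v) / L + 2 := by
        rw [Nat.div_lt_iff_lt_mul hL1]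
        have h9 := Nat.div_add_mod (w * L - v) L
        have h10 := Nat.mod_lt (w * L - v) hL1
        rw [mul_comm] at h9
        nlinarith
      rw [mem_union, mem_filter, mem_filter]
      rcases Nat.lt_or_ge (b / L) ((w * L - v) / L + 1) with h | h
      · exact Or.inl ⟨hb, by omega⟩
      · exact Or.inr ⟨hb, by omega⟩
    have hcc : ∀ v : ℕ, ((B.filter fun b => b / L = (w * L - v) / L) ∪
          (B.filter fun b => b / L = (w * L - v) / L + 1)).card ≤ 8 * K := by
      intro v
      refine (card_union_le _ _).trans ?_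
      have := hblock ((w * L - v) / L)
      have := hblock ((w * L - v) / L + 1)
      omega
    obtain ⟨S, hS, hSc, hSd⟩ := matching (B.offDiag.filter fun e => (e.1 + e.2) / L = w) (8 * K)
      (by omega)
      (fun v => (offdiag_deg1 B (fun e => (e.1 + e.2) / L = w) v _ (hcov v)).trans (hcc v))
      (fun v => (offdiag_deg2 B (fun e => (e.1 + e.2) / L = w) v _ fun b hb h =>
        hcov v b hb (by rw [add_comm]; exact h)).trans (hcc v)) K
      (by
        refine le_trans (le_of_eq ?_) hw
        ring)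
    refine ⟨S, w * L + (L - 1), hSc, ?_, hSd, ?_⟩
    · intro e he
      have := mem_offDiag.1 (mem_filter.1 (hS he)).1
      exact this
    · intro e he
      have h1 := (mem_filter.1 (hS he)).2
      have h3 := Nat.div_add_mod (e.1 + e.2) L
      have h4 := Nat.mod_lt (e.1 + e.2) hL1
      rw [h1, mul_comm] at h3
      constructor <;> omega

end Pool.Agent.J4H48.SM
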