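import Pool.Agent.J4H48.SM.Mat

/-!
The probability that a perturbed finite set has few representations.
-/

set_option autoImplicit false

open Finset MeasureTheory ProbabilityTheory

namespace Pool.Agent.J4H48.SM

/-- the representations of `n` by the finite set `{a + x a | a ∈ B}` -/
def repF (B : Finset ℕ) (x : ℕ → ℕ) (n : ℕ) : Set (ℕ × ℕ) :=
  {q | (∃ a ∈ B, q.1 = a + x a) ∧ (∃ b ∈ B, q.2 = b + x b) ∧ q.1 + q.2 = n}

theorem repF_fin (B : Finset ℕ) (x : ℕ → ℕ) (n : ℕ) : (repF B x n).Finite :=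
  (Finset.finite_toSet (antidiagonal n)).subset fun _ hq => mem_coe.2 (mem_antidiagonal.2 hq.2.2)

theorem repF_mono {B C : Finset ℕ} (h : B ⊆ C) (x : ℕ → ℕ) (n : ℕ) :
    (repF B x n).ncard ≤ (repF C x n).ncard := by
  refine Set.ncard_le_ncard ?_ (repF_fin C x n)
  rintro q ⟨⟨a, ha, h1⟩, ⟨b, hb, h2⟩, h3⟩
  exact ⟨⟨a, h ha, h1⟩, ⟨b, h hb, h2⟩, h3⟩

theorem repF_congr {B : Finset ℕ} {x y : ℕ → ℕ} (h : ∀ b ∈ B, x b = y b) (n : ℕ) :
    repF B x n = repF B y n := by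
  ext q
  constructor
  · rintro ⟨⟨a, ha, h1⟩, ⟨b, hb, h2⟩, h3⟩
    exact ⟨⟨a, ha, by rw [← h a ha]; exact h1⟩, ⟨b, hb, by rw [← h b hb]; exact h2⟩, h3⟩
  · rintro ⟨⟨a, ha, h1⟩, ⟨b, hb, h2⟩, h3⟩
    exact ⟨⟨a, ha, by rw [h a ha]; exact h1⟩, ⟨b, hb, by rw [h b hb]; exact h2⟩, h3⟩

theorem good {B : Finset ℕ} {M K : ℕ} {S : Finset (ℕ × ℕ)} {n : ℕ} (hS : Fam B M K S n)
    (x : ℕ → ℕ) (h : ∀ e ∈ S, x e.1 = n - (e.1 + e.2) ∧ x e.2 = 0) :
    K ≤ (repF B x n).ncard := by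
  rw [← hS.card, ← Set.ncard_coe_finset S]
  refine Set.ncard_le_ncard_of_injOn (fun e => (n - e.2, e.2)) ?_ ?_ (repF_fin B x n)
  · intro e he
    have he' : e ∈ S := he
    have h1 := hS.mem e he'
    have h2 := hS.win e he'
    have h3 := h e he'
    refine ⟨⟨e.1, h1.1, ?_⟩, ⟨e.2, h1.2.1, ?_⟩, ?_⟩
    · show n - e.2 = e.1 + x e.1
      omega
    · show e.2 = e.2 + x e.2
      omega
    · show n - e.2 + e.2 = n
      omega
  · intro e he f hf hef
    have he' : e ∈ S := he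
    have hf' : f ∈ S := hf
    by_contra hne
    have h0 : e.2 = f.2 := (Prod.ext_iff.1 (show ((n - e.2, e.2) : ℕ × ℕ) = (n - f.2, f.2) from hef)).2
    exact (hS.dis e he' f hf' hne).2.2.2 h0

/-- the vertices of a family of pairs -/
def Vx (S : Finset (ℕ × ℕ)) : Finset ℕ := S.image Prod.fst ∪ S.image Prod.snd

theorem Vx_card (S : Finset (ℕ × ℕ)) : (Vx S).card ≤ 2 * S.card := by
  calc (Vx S).card ≤ (S.image Prod.fst).card + (S.image Prod.snd).card := card_union_le _ _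
    _ ≤ S.card + S.card := add_le_add card_image_le card_image_le
    _ = 2 * S.card := by omega

theorem mem_Vx {S : Finset (ℕ × ℕ)} {e : ℕ × ℕ} (he : e ∈ S) : e.1 ∈ Vx S ∧ e.2 ∈ Vx S :=
  ⟨mem_union_left _ (mem_image_of_mem _ he), mem_union_right _ (mem_image_of_mem _ he)⟩

open Classical in
/-- the values which give many representations of `n` -/
noncomputable def tv (S : Finset (ℕ × ℕ)) (n : ℕ) (v : ℕ) : ℕ :=
  if h : ∃ e ∈ S, e.1 = v then n - (h.choose.1 + h.choose.2) else 0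

theorem tv_fst {B : Finset ℕ} {M K : ℕ} {S : Finset (ℕ × ℕ)} {n : ℕ} (hS : Fam B M K S n)
    {e : ℕ × ℕ} (he : e ∈ S) : tv S n e.1 = n - (e.1 + e.2) := by
  have h : ∃ f ∈ S, f.1 = e.1 := ⟨e, he, rfl⟩
  unfold tv
  rw [dif_pos h]
  have h1 := h.choose_spec
  have h2 : h.choose = e := by
    by_contra hne
    exact (hS.dis _ h1.1 e he hne).1 h1.2
  rw [h2]

theorem tv_snd {B : Finset ℕ} {M K : ℕ} {S : Finset (ℕ × ℕ)} {n : ℕ} (hS : Fam B M K S n)
    {e : ℕ × ℕ} (he : e ∈ S) : tv S n e.2 = 0 := by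
  unfold tv
  rw [dif_neg]
  rintro ⟨f, hf, h⟩
  by_cases hfe : f = e
  · subst hfe
    exact (hS.mem _ hf).2.2 h
  · exact (hS.dis f hf e he hfe).2.1 h

theorem tv_lt {B : Finset ℕ} {M K : ℕ} {S : Finset (ℕ × ℕ)} {n : ℕ} (hM : 1 ≤ M)
    (hS : Fam B M K S n) (v : ℕ) : tv S n v < M := by
  unfold tv
  split_ifs with h
  · have := hS.win _ h.choose_spec.1
    omega
  · omega

variable {Ω : Type*} [MeasurableSpace Ω] {μ : Measure Ω} {ξ : ℕ → Ω → ℕ}

/-- the event that the perturbed finite set has few representations -/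
def Bad (ξ : ℕ → Ω → ℕ) (B : Finset ℕ) (K : ℕ) : Set Ω :=
  {ω | ∀ n, (repF B (fun a => ξ a ω) n).ncard ≤ K}

theorem bad_le [IsProbabilityMeasure μ] (hξ : iIndepFun ξ μ) (hm : ∀ a, Measurable (ξ a))
    (N M K : ℕ) (p : ℝ) (hp0 : 0 ≤ p) (hp1 : p ≤ 1) (hM : 1 ≤ M) (hMN : M ≤ N) :
    ∀ (r : ℕ) (B : Finset ℕ), (∀ b ∈ B, 1 ≤ b ∧ b ≤ N) →
      (∀ b ∈ B, ∀ x < M, p ≤ μ.real {ω | ξ b ω = x}) →
      384 * (K + 1) ^ 2 * N ≤ (B.card - 2 * (K + 1) * r) ^ 2 * M →
      μ.real (Bad ξ B K) ≤ (1 - p ^ (2 * (K + 1))) ^ r := by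
  intro r
  induction r with
  | zero =>
    intro B _ _ _
    rw [pow_zero]
    exact measureReal_le_one
  | succ r ih =>
    intro B hB hp h
    have hB' : 384 * (K + 1) ^ 2 * N ≤ B.card ^ 2 * M := by
      refine h.trans (Nat.mul_le_mul_right _ (Nat.pow_le_pow_left (Nat.sub_le _ _) 2))
    obtain ⟨S, n, hS⟩ := window B N M (K + 1) hB hM hMN (by omega) hB'
    let V := Vx S
    have hVB : V ⊆ B := by
      intro v hv
      rcases mem_union.1 hv with h | h
      · obtain ⟨e, he, rfl⟩ := mem_image.1 h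
        exact (hS.mem e he).1
      · obtain ⟨e, he, rfl⟩ := mem_image.1 h
        exact (hS.mem e he).2.1
    have hVc : V.card ≤ 2 * (K + 1) := by
      have := Vx_card S
      rw [hS.card] at this
      exact this
    have hih := ih (B \ V) (fun b hb => hB b (mem_sdiff.1 hb).1)
      (fun b hb => hp b (mem_sdiff.1 hb).1) (by
        refine h.trans (Nat.mul_le_mul_right _ (Nat.pow_le_pow_left ?_ 2))
        rw [card_sdiff_of_subset hVB]
        have : 2 * (K + 1) * (r + 1) = 2 * (K + 1) * r + 2 * (K + 1) := by ring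
        omega)
    -- the good event
    let G : Set Ω := {ω | ∀ v ∈ V, ξ v ω = tv S n v}
    have hBG : Bad ξ B K ⊆ Gᶜ ∩ Bad ξ (B \ V) K := by
      intro ω hω
      refine ⟨fun hG => ?_, fun n' => (repF_mono sdiff_subset _ n').trans (hω n')⟩
      have h1 := good hS (fun a => ξ a ω) fun e he =>
        ⟨(hG e.1 (mem_Vx he).1).trans (tv_fst hS he), (hG e.2 (mem_Vx he).2).trans (tv_snd hS he)⟩
      have h2 := hω n
      omega
    have hind := hξ.indepFun_finset V (B \ V) disjoint_sdiff hm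
    let s : Set (V → ℕ) := {y | ∀ v : V, y v = tv S n v}
    let t : Set ((B \ V : Finset ℕ) → ℕ) := {y | ∀ n, (repF (B \ V)
      (fun a => if h : a ∈ B \ V then y ⟨a, h⟩ else 0) n).ncard ≤ K}
    have hs : (fun (ω : Ω) (i : V) => ξ i ω) ⁻¹' s = G := by
      ext ω
      exact ⟨fun h v hv => h ⟨v, hv⟩, fun h v => h v v.2⟩
    have ht : (fun (ω : Ω) (i : (B \ V : Finset ℕ)) => ξ i ω) ⁻¹' t = Bad ξ (B \ V) K := by
      ext ω
      show (∀ n, (repF (B \ V) (fun a => if h : a ∈ B \ V then ξ a ω else 0) n).ncard ≤ K) ↔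
        ∀ n, (repF (B \ V) (fun a => ξ a ω) n).ncard ≤ K
      refine forall_congr' fun n' => ?_
      rw [repF_congr (y := fun a => ξ a ω) (fun b hb => by rw [dif_pos hb])]
    have hprod := hind.measure_inter_preimage_eq_mul sᶜ t (MeasurableSet.of_discrete)
      (MeasurableSet.of_discrete)
    rw [Set.preimage_compl, hs, ht] at hprod
    have hGm : MeasurableSet G := by
      rw [← hs]
      have hmV : Measurable (fun (ω : Ω) (i : V) => ξ i ω) := measurable_pi_lambda _ fun i => hm i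
      exact hmV (MeasurableSet.of_discrete (s := s))
    have hG : p ^ (2 * (K + 1)) ≤ μ.real G := by
      have h1 := hξ.measure_inter_preimage_eq_mul V (sets := fun v => {tv S n v})
        (fun _ _ => MeasurableSet.of_discrete)
      have h2 : (⋂ i ∈ V, ξ i ⁻¹' {tv S n i}) = G := by
        ext ω
        simp only [Set.mem_iInter, Set.mem_preimage, Set.mem_singleton_iff]
        rfl
      rw [h2] at h1
      have h3 : μ.real G = ∏ v ∈ V, μ.real (ξ v ⁻¹' {tv S n v}) := by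
        rw [measureReal_def, h1, ENNReal.toReal_prod]
        rfl
      rw [h3]
      calc p ^ (2 * (K + 1)) ≤ p ^ V.card := pow_le_pow_of_le_one hp0 hp1 hVc
        _ = ∏ v ∈ V, p := by rw [prod_const]
        _ ≤ ∏ v ∈ V, μ.real (ξ v ⁻¹' {tv S n v}) :=
          prod_le_prod (fun _ _ => hp0) fun v hv => hp v (hVB hv) _ (tv_lt hM hS v)
    have h4 : μ.real (Gᶜ ∩ Bad ξ (B \ V) K) = μ.real Gᶜ * μ.real (Bad ξ (B \ V) K) := by
      rw [measureReal_def, hprod, ENNReal.toReal_mul]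
      rfl
    calc μ.real (Bad ξ B K) ≤ μ.real (Gᶜ ∩ Bad ξ (B \ V) K) := measureReal_mono hBG
      _ = μ.real Gᶜ * μ.real (Bad ξ (B \ V) K) := h4
      _ ≤ (1 - p ^ (2 * (K + 1))) * (1 - p ^ (2 * (K + 1))) ^ r := by
        refine mul_le_mul ?_ hih measureReal_nonneg ?_
        · rw [probReal_compl_eq_one_sub hGm]
          linarith
        · have : p ^ (2 * (K + 1)) ≤ 1 := pow_le_one₀ hp0 hp1
          linarith
      _ = (1 - p ^ (2 * (K + 1))) ^ (r + 1) := by rw [pow_succ]; ring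

end Pool.Agent.J4H48.SM
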